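import Mathlib

open Real MeasureTheory Set Filter Topology

namespace Pool.Agent.Results.MP_e166ae_gt.No

/-- translated theta function of the lattice with basis `u` -/
noncomputable def theta {d : ℕ} (α : ℝ) (u : Fin d → EuclideanSpace ℝ (Fin d))
    (y : EuclideanSpace ℝ (Fin d)) : ℝ :=
  ∑' k : Fin d → ℤ, Real.exp (-(π * α) * ‖(∑ i, (k i : ℝ) • u i) + y‖ ^ 2)

/-- squared norm of the gradient of the square root of theta -/
noncomputable def Q {d : ℕ} (α : ℝ) (u : Fin d → EuclideanSpace ℝ (Fin d))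
    (y : EuclideanSpace ℝ (Fin d)) : ℝ :=
  ‖gradient (fun z => √(theta α u z)) y‖ ^ 2

/-- the Fisher information for Lebesgue measure on the ball of radius `R` -/
noncomputable def F {d : ℕ} (α R : ℝ) (u : Fin d → EuclideanSpace ℝ (Fin d)) : ℝ :=
  ∫ y in Metric.closedBall (0 : EuclideanSpace ℝ (Fin d)) R, Q α u y

lemma hasSum_pi (d : ℕ) (f : Fin d → ℤ → ℝ) (h0 : ∀ i k, 0 ≤ f i k) (hs : ∀ i, Summable (f i)) :
    HasSum (fun k : Fin d → ℤ => ∏ i, f i (k i)) (∏ i, ∑' k, f i k) := by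
  induction d with
  | zero => simpa using hasSum_unique (fun k : Fin 0 → ℤ => (1:ℝ))
  | succ n ih =>
    have h1 := ih (fun i => f i.succ) (fun i k => h0 _ _) (fun i => hs _)
    have h2 := (hs 0).hasSum.mul h1
      ((hs 0).mul_of_nonneg h1.summable (fun k => h0 0 k)
        (fun k => Finset.prod_nonneg fun i _ => h0 _ _))
    rw [← (Fin.consEquiv (fun _ : Fin (n+1) => ℤ)).hasSum_iff, Fin.prod_univ_succ]
    refine h2.congr_fun ?_
    rintro ⟨x, k⟩
    simp [Fin.prod_univ_succ, Fin.consEquiv]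

noncomputable def th (c a s : ℝ) : ℝ := ∑' k : ℤ, Real.exp (-c * (k * a + s) ^ 2)
noncomputable def th' (c a s : ℝ) : ℝ :=
  ∑' k : ℤ, (-2 * c * (k * a + s)) * Real.exp (-c * (k * a + s) ^ 2)

lemma b1 {c : ℝ} (hc : 0 < c) (x : ℝ) :
    Real.exp (-c * x ^ 2) ≤ Real.exp (1 / c) * Real.exp (-(2 * |x|)) := by
  rw [← Real.exp_add]
  apply Real.exp_le_exp.2
  have h : 0 ≤ (c * |x| - 1) ^ 2 / c := by positivity
  have h2 : (c * |x| - 1) ^ 2 / c = c * x ^ 2 - 2 * |x| + 1 / c := by
    rw [← sq_abs x]; field_simp; ring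
  linarith

lemma b2 {c : ℝ} (hc : 0 < c) (x : ℝ) :
    Real.exp (-c * x ^ 2) ≤ Real.exp (1 / c) * Real.exp (-|x|) :=
  (b1 hc x).trans (by gcongr; linarith [abs_nonneg x])

lemma b3 {c : ℝ} (hc : 0 < c) (x : ℝ) :
    |(-2 * c * x) * Real.exp (-c * x ^ 2)| ≤ 2 * c * Real.exp (1 / c) * Real.exp (-|x|) := by
  rw [abs_mul, abs_of_pos (Real.exp_pos _), abs_mul, abs_mul, abs_of_pos hc]
  have h1 : |x| ≤ Real.exp |x| := by linarith [Real.add_one_le_exp |x|]
  have h2 := b1 hc x
  have h3 : Real.exp |x| * Real.exp (-(2 * |x|)) = Real.exp (-|x|) := by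
    rw [← Real.exp_add]; ring_nf
  calc |(-2:ℝ)| * c * |x| * Real.exp (-c * x ^ 2)
      ≤ |(-2:ℝ)| * c * Real.exp |x| * (Real.exp (1 / c) * Real.exp (-(2 * |x|))) := by gcongr
    _ = 2 * c * Real.exp (1 / c) * Real.exp (-|x|) := by rw [← h3]; norm_num; ring

lemma b4 {a s T : ℝ} (ha : 0 < a) (hs : |s| ≤ T) (k : ℤ) :
    Real.exp (-|k * a + s|) ≤ Real.exp T * Real.exp (-(a * |(k:ℝ)|)) := by
  rw [← Real.exp_add]
  apply Real.exp_le_exp.2
  have h1 : |(k:ℝ) * a| ≤ |k * a + s| + |s| := by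
    have := abs_sub ((k:ℝ) * a + s) s
    simpa using this
  rw [abs_mul, abs_of_pos ha] at h1
  linarith

lemma sumexp {a : ℝ} (ha : 0 < a) : Summable fun k : ℤ => Real.exp (-(a * |(k:ℝ)|)) := by
  have h : Summable fun n : ℕ => Real.exp (-(a * (n:ℝ))) := by
    have := summable_geometric_of_lt_one (Real.exp_pos (-a)).le
      (Real.exp_lt_one_iff.2 (by linarith))
    refine this.congr fun n => ?_
    rw [← Real.exp_nat_mul]; ring_nf
  refine Summable.of_nat_of_neg ?_ ?_
  · simpa using h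
  · simpa using h

lemma sum_th {c a : ℝ} (hc : 0 < c) (ha : 0 < a) (s : ℝ) :
    Summable fun k : ℤ => Real.exp (-c * (k * a + s) ^ 2) := by
  refine Summable.of_nonneg_of_le (fun k => (Real.exp_pos _).le) (fun k => ?_)
    (((sumexp ha).mul_left (Real.exp |s|)).mul_left (Real.exp (1 / c)))
  exact (b2 hc _).trans (by gcongr; exact b4 ha le_rfl k)

lemma bd' {c a s T : ℝ} (hc : 0 < c) (ha : 0 < a) (hs : |s| ≤ T) (k : ℤ) :
    ‖(-2 * c * (k * a + s)) * Real.exp (-c * (k * a + s) ^ 2)‖ ≤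
      2 * c * Real.exp (1 / c) * (Real.exp T * Real.exp (-(a * |(k:ℝ)|))) :=
  (b3 hc _).trans (by gcongr; exact b4 ha hs k)

lemma deriv_th {c a : ℝ} (hc : 0 < c) (ha : 0 < a) (s : ℝ) :
    HasDerivAt (th c a) (th' c a s) s := by
  have hs : s ∈ Ioo (-(|s| + 1)) (|s| + 1) :=
    ⟨by linarith [neg_abs_le s], by linarith [le_abs_self s]⟩
  refine hasDerivAt_tsum_of_isPreconnected
    (g := fun (k : ℤ) (s : ℝ) => Real.exp (-c * (k * a + s) ^ 2))
    (g' := fun (k : ℤ) (s : ℝ) => (-2 * c * (k * a + s)) * Real.exp (-c * (k * a + s) ^ 2))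
    (((sumexp ha).mul_left (Real.exp (|s| + 1))).mul_left (2 * c * Real.exp (1 / c)))
    isOpen_Ioo isPreconnected_Ioo (fun k y _ => ?_) (fun k y hy => ?_) hs (sum_th hc ha s) hs
  · have h := ((((hasDerivAt_id y).const_add ((k:ℝ) * a)).pow 2).const_mul (-c)).exp
    refine h.congr_deriv ?_
    simp; ring
  · exact bd' hc ha (abs_le.2 ⟨hy.1.le, hy.2.le⟩) k

lemma cont_th' {c a : ℝ} (hc : 0 < c) (ha : 0 < a) : Continuous (th' c a) := by
  refine continuous_iff_continuousAt.2 fun s => ?_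
  have hs : s ∈ Ioo (-(|s| + 1)) (|s| + 1) :=
    ⟨by linarith [neg_abs_le s], by linarith [le_abs_self s]⟩
  have h : ContinuousOn (th' c a) (Ioo (-(|s| + 1)) (|s| + 1)) :=
    continuousOn_tsum (fun k => by fun_prop)
      (((sumexp ha).mul_left (Real.exp (|s| + 1))).mul_left (2 * c * Real.exp (1 / c)))
      (fun k y hy => bd' hc ha (abs_le.2 ⟨hy.1.le, hy.2.le⟩) k)
  exact h.continuousAt (isOpen_Ioo.mem_nhds hs)

lemma cd_th {c a : ℝ} (hc : 0 < c) (ha : 0 < a) : ContDiff ℝ 1 (th c a) := by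
  rw [contDiff_one_iff_deriv]
  refine ⟨fun s => (deriv_th hc ha s).differentiableAt, ?_⟩
  have : deriv (th c a) = th' c a := funext fun s => (deriv_th hc ha s).deriv
  rw [this]; exact cont_th' hc ha

lemma th_ge {c a s T : ℝ} (hc : 0 < c) (ha : 0 < a) (hs : |s| ≤ T) :
    Real.exp (-c * T ^ 2) ≤ th c a s := by
  have h := (sum_th hc ha s).le_tsum 0 (fun k _ => (Real.exp_pos _).le)
  refine le_trans ?_ h
  apply Real.exp_le_exp.2
  have : s ^ 2 ≤ T ^ 2 := by rw [← sq_abs s]; gcongr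
  simp only [Int.cast_zero, zero_mul, zero_add]
  nlinarith

lemma th_pos {c a : ℝ} (hc : 0 < c) (ha : 0 < a) (s : ℝ) : 0 < th c a s :=
  (Real.exp_pos _).trans_le (th_ge hc ha le_rfl)

lemma th_big {c s T : ℝ} (hc : 0 < c) {N : ℕ} (hN : 0 < N) (hs : |s| ≤ T) :
    N * Real.exp (-c * (T + 1) ^ 2) ≤ th c (1 / N) s := by
  have hN' : (0:ℝ) < N := by exact_mod_cast hN
  have h := (sum_th hc (a := 1 / N) (by positivity) s).sum_le_tsum (Finset.Ico (0:ℤ) N)
    (fun k _ => (Real.exp_pos _).le)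
  refine le_trans ?_ h
  have h2 : ∀ k ∈ Finset.Ico (0:ℤ) N,
      Real.exp (-c * (T + 1) ^ 2) ≤ Real.exp (-c * (k * (1 / N) + s) ^ 2) := by
    intro k hk
    rw [Finset.mem_Ico] at hk
    have k0 : (0:ℝ) ≤ k := by exact_mod_cast hk.1
    have k1 : (k:ℝ) ≤ N := by exact_mod_cast hk.2.le
    have k2 : (k:ℝ) * (1 / N) ≤ 1 := by rw [mul_one_div, div_le_one hN']; exact k1
    have k3 : 0 ≤ (k:ℝ) * (1 / N) := by positivity
    have : ((k:ℝ) * (1 / N) + s) ^ 2 ≤ (T + 1) ^ 2 := by
      rw [← sq_abs]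
      have : |(k:ℝ) * (1 / N) + s| ≤ T + 1 := by
        rw [abs_le] at hs ⊢; constructor <;> linarith [hs.1, hs.2]
      gcongr
    apply Real.exp_le_exp.2
    nlinarith
  have h3 := Finset.card_nsmul_le_sum _ _ _ h2
  simpa using h3

noncomputable def S : ℝ := ∑' k : ℤ, Real.exp (-(1 * |(k:ℝ)|))

lemma th_le {c a s T : ℝ} (hc : 0 < c) (ha : 1 ≤ a) (hs : |s| ≤ T) :
    th c a s ≤ Real.exp (1 / c) * (Real.exp T * S) := by
  have ha' : 0 < a := by linarith
  unfold S
  rw [← tsum_mul_left, ← tsum_mul_left]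
  refine (sum_th hc ha' s).tsum_le_tsum (fun k => ?_)
    (((sumexp one_pos).mul_left _).mul_left _)
  refine (b2 hc _).trans ?_
  gcongr
  refine (b4 ha' hs k).trans ?_
  gcongr

lemma th'_le {c a s T : ℝ} (hc : 0 < c) (ha : 1 ≤ a) (hs : |s| ≤ T) :
    th' c a s ≤ -2 * c * s * Real.exp (-c * s ^ 2) +
      2 * c * Real.exp (1 / c) * (Real.exp T * S) * Real.exp (1 - a) := by
  have ha' : 0 < a := by linarith
  have hsum : Summable fun k : ℤ => (-2 * c * (k * a + s)) * Real.exp (-c * (k * a + s) ^ 2) :=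
    Summable.of_norm_bounded
      (((sumexp ha').mul_left (Real.exp T)).mul_left (2 * c * Real.exp (1 / c)))
      (fun k => bd' hc ha' hs k)
  have h1 : HasSum (fun k : ℤ => (if k = 0 then -2 * c * s * Real.exp (-c * s ^ 2) else 0) +
      2 * c * Real.exp (1 / c) * (Real.exp T * Real.exp (-(1 * |(k:ℝ)|))) * Real.exp (1 - a))
      (-2 * c * s * Real.exp (-c * s ^ 2) +
      2 * c * Real.exp (1 / c) * (Real.exp T * S) * Real.exp (1 - a)) :=
    (hasSum_ite_eq 0 _).add
      ((((sumexp one_pos).hasSum.mul_left _).mul_left _).mul_right _)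
  refine hasSum_le (fun k => ?_) hsum.hasSum h1
  by_cases hk : k = 0
  · subst hk
    simp only [Int.cast_zero, zero_mul, zero_add, if_true]
    have : 0 ≤ 2 * c * Real.exp (1 / c) * (Real.exp T * Real.exp (-(1 * |(0:ℝ)|))) *
      Real.exp (1 - a) := by positivity
    linarith
  · rw [if_neg hk, zero_add]
    refine (le_abs_self _).trans ((bd' hc ha' hs k).trans ?_)
    have k1 : (1:ℝ) ≤ |(k:ℝ)| := by exact_mod_cast Int.one_le_abs hk
    have : Real.exp (-(a * |(k:ℝ)|)) ≤ Real.exp (-(1 * |(k:ℝ)|)) * Real.exp (1 - a) := by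
      rw [← Real.exp_add]
      apply Real.exp_le_exp.2
      nlinarith
    calc 2 * c * Real.exp (1 / c) * (Real.exp T * Real.exp (-(a * |(k:ℝ)|)))
        ≤ 2 * c * Real.exp (1 / c) *
          (Real.exp T * (Real.exp (-(1 * |(k:ℝ)|)) * Real.exp (1 - a))) := by gcongr
      _ = _ := by ring

lemma theta_diag {d : ℕ} {α : ℝ} (hα : 0 < α) (a : Fin d → ℝ) (ha : ∀ i, 0 < a i)
    (y : EuclideanSpace ℝ (Fin d)) :
    theta α (fun i => EuclideanSpace.single i (a i)) y = ∏ i, th (π * α) (a i) (y i) := by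
  have hc : 0 < π * α := mul_pos Real.pi_pos hα
  have h := hasSum_pi d (fun i k => Real.exp (-(π * α) * (k * a i + y i) ^ 2))
    (fun i k => (Real.exp_pos _).le) (fun i => sum_th hc (ha i) (y i))
  unfold theta th
  rw [← h.tsum_eq]
  refine tsum_congr fun k => ?_
  rw [← Real.exp_sum, ← Finset.mul_sum, EuclideanSpace.real_norm_sq_eq]
  congr 2
  refine Finset.sum_congr rfl fun j _ => ?_
  simp [Finset.sum_apply, Pi.single_apply]

/-- diagonal entries `1/N, N, 1, ..., 1` -/
noncomputable def dg (n N : ℕ) : Fin (n + 2) → ℝ :=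
  Fin.cons (1 / (N:ℝ)) (Fin.cons (N:ℝ) fun _ => 1)

lemma dg_pos (n : ℕ) {N : ℕ} (hN : 0 < N) (i : Fin (n + 2)) : 0 < dg n N i := by
  have hN' : (0:ℝ) < N := by exact_mod_cast hN
  refine Fin.cases ?_ (fun j => Fin.cases ?_ (fun l => ?_) j) i
  · simp [dg, hN]
  · simp [dg, hN]
  · simp [dg]

lemma Q_ge {n N : ℕ} (hN : 0 < N) {α R m : ℝ} (hα : 0 < α) (hm : 0 < m)
    (y : EuclideanSpace ℝ (Fin (n + 2))) (hy : ‖y‖ ≤ R)
    (hd : th' (π * α) N (y 1) ≤ -m)
    (hg : DifferentiableAt ℝ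
      (fun z => √(theta α (fun i => EuclideanSpace.single i (dg n N i)) z)) y) :
    N * (Real.exp (-(π * α) * (R + 1) ^ 2) * Real.exp (-(π * α) * R ^ 2) ^ n * m ^ 2 /
      (4 * (Real.exp (1 / (π * α)) * (Real.exp R * S)))) ≤
      Q α (fun i => EuclideanSpace.single i (dg n N i)) y := by
  have hc : 0 < π * α := mul_pos Real.pi_pos hα
  have hN' : (0:ℝ) < N := by exact_mod_cast hN
  have hN1 : (1:ℝ) ≤ N := by exact_mod_cast hN
  set c := π * α with hcdef
  set g := fun z => √(theta α (fun i => EuclideanSpace.single i (dg n N i)) z) with hgdef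
  set e : EuclideanSpace ℝ (Fin (n + 2)) := EuclideanSpace.single 1 1 with he
  have hyi : ∀ i, |y i| ≤ R := fun i => by
    have := (PiLp.norm_apply_le y i)
    exact (Real.norm_eq_abs _ ▸ this).trans hy
  set P := th c (1 / N) (y 0) * ∏ i : Fin n, th c 1 (y i.succ.succ) with hP
  have hP0 : 0 < P := mul_pos (th_pos hc (by positivity) _)
    (Finset.prod_pos fun i _ => th_pos hc one_pos _)
  have hPge : N * Real.exp (-c * (R + 1) ^ 2) * Real.exp (-c * R ^ 2) ^ n ≤ P := by
    have h1 := th_big hc hN (hyi 0)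
    have h2 : Real.exp (-c * R ^ 2) ^ n ≤ ∏ i : Fin n, th c 1 (y i.succ.succ) := by
      have := Finset.prod_le_prod (s := Finset.univ)
        (f := fun _ : Fin n => Real.exp (-c * R ^ 2))
        (g := fun i : Fin n => th c 1 (y i.succ.succ)) (fun _ _ => (Real.exp_pos _).le)
        (fun i _ => th_ge hc one_pos (hyi _))
      simpa using this
    exact mul_le_mul h1 h2 (by positivity) (th_pos hc (by positivity) _).le
  have hline : (fun t : ℝ => g (y + t • e)) = fun t => √(P * th c N (y 1 + t)) := by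
    funext t
    simp only [hgdef]
    rw [theta_diag hα _ (dg_pos n hN), Fin.prod_univ_succ, Fin.prod_univ_succ, hP]
    congr 1
    have e0 : (y + t • e) 0 = y 0 := by simp [he]
    have e1 : (y + t • e) (Fin.succ 0) = y 1 + t := by simp [he]
    have e2 : ∀ i : Fin n, (y + t • e) i.succ.succ = y i.succ.succ := fun i => by
      have : (i.succ.succ : Fin (n + 2)) ≠ 1 := by
        intro h
        have := congrArg Fin.val h
        simp at this
      simp [he, this]
    simp only [e0, e1, e2]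
    simp only [dg, Fin.cons_zero, Fin.cons_succ]
    ring
  have ht := th_pos hc hN' (y 1)
  have h1 : HasDerivAt (fun t : ℝ => g (y + t • e)) (fderiv ℝ g y e) 0 := by
    have hl : HasDerivAt (fun t : ℝ => y + t • e) e 0 := by
      simpa using ((hasDerivAt_id (0:ℝ)).smul_const e).const_add y
    have hg' : HasFDerivAt g (fderiv ℝ g y) (y + (0:ℝ) • e) := by simpa using hg.hasFDerivAt
    exact hg'.comp_hasDerivAt 0 hl
  have h2 : HasDerivAt (fun t => √(P * th c N (y 1 + t)))
      (P * th' c N (y 1) / (2 * √(P * th c N (y 1)))) 0 := by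
    have h3 : HasDerivAt (fun t => th c N (y 1 + t)) (th' c N (y 1)) 0 := by
      have := (deriv_th hc hN' (y 1 + 0)).comp_const_add (y 1) 0
      simpa using this
    have h4 := (h3.const_mul P).sqrt (by simpa using ⟨hP0.ne', ht.ne'⟩)
    simpa using h4
  rw [hline] at h1
  have h5 := h1.unique h2
  have h6 : |fderiv ℝ g y e| ≤ ‖gradient g y‖ := by
    have := (fderiv ℝ g y).le_opNorm e
    have hn : ‖e‖ = 1 := by simp [he]
    rw [hn, mul_one] at this
    simpa [gradient] using this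
  have h7 : (fderiv ℝ g y e) ^ 2 ≤ ‖gradient g y‖ ^ 2 := by
    rw [← sq_abs]; gcongr
  refine le_trans ?_ h7
  rw [h5, div_pow, mul_pow P, mul_pow 2, Real.sq_sqrt (by positivity)]
  have hm2 : m ^ 2 ≤ th' c N (y 1) ^ 2 := by nlinarith
  have hM := th_le hc hN1 (hyi 1)
  have h8 : P ^ 2 * th' c N (y 1) ^ 2 / (2 ^ 2 * (P * th c N (y 1))) =
      P * th' c N (y 1) ^ 2 / (4 * th c N (y 1)) := by field_simp; ring
  rw [h8]
  calc _ = (N * Real.exp (-c * (R + 1) ^ 2) * Real.exp (-c * R ^ 2) ^ n) * m ^ 2 /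
      (4 * (Real.exp (1 / c) * (Real.exp R * S))) := by ring
    _ ≤ _ := by gcongr

theorem result (d : ℕ) (hd : 2 ≤ d) (α R : ℝ) (hα : 0 < α) (hR : 0 < R) (C : ℝ) :
    ∃ u : Fin d → EuclideanSpace ℝ (Fin d), |(Matrix.of fun i j => u i j).det| = 1 ∧
      ContDiff ℝ 1 (fun z => √(theta α u z)) ∧ C < F α R u := by
  obtain ⟨n, rfl⟩ : ∃ n, d = n + 2 := ⟨d - 2, by omega⟩
  have hc : 0 < π * α := mul_pos Real.pi_pos hα
  set c := π * α with hcdef
  set m := c * (R / 4) * Real.exp (-c * R ^ 2) with hm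
  have hm0 : 0 < m := by positivity
  have hS : 0 < Real.exp (1 / c) * (Real.exp R * S) :=
    (th_pos hc one_pos 0).trans_le (th_le hc le_rfl (by simpa using hR.le))
  set K := Real.exp (-c * (R + 1) ^ 2) * Real.exp (-c * R ^ 2) ^ n * m ^ 2 /
      (4 * (Real.exp (1 / c) * (Real.exp R * S))) with hK
  have hK0 : 0 < K := by positivity
  set p : EuclideanSpace ℝ (Fin (n + 2)) := EuclideanSpace.single 1 (R / 2) with hp
  set B := Metric.closedBall p (R / 4) with hB
  have hv : 0 < volume.real B := by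
    refine ENNReal.toReal_pos ?_ (isCompact_closedBall _ _).measure_lt_top.ne
    exact (Metric.measure_closedBall_pos volume p (by positivity)).ne'
  have t1 : Tendsto (fun N : ℕ => 2 * c * Real.exp (1 / c) * (Real.exp R * S) *
      Real.exp (1 - N)) atTop (𝓝 0) := by
    have : Tendsto (fun N : ℕ => Real.exp (1 - N)) atTop (𝓝 0) :=
      Real.tendsto_exp_atBot.comp
        (tendsto_atBot_add_const_left _ 1 (tendsto_neg_atTop_atBot.comp
          tendsto_natCast_atTop_atTop))
    simpa using this.const_mul (2 * c * Real.exp (1 / c) * (Real.exp R * S))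
  have t2 : Tendsto (fun N : ℕ => (N * K) * volume.real B) atTop atTop :=
    (tendsto_natCast_atTop_atTop.atTop_mul_const hK0).atTop_mul_const hv
  obtain ⟨N, ⟨hN1, hN2⟩, hN⟩ := (((t1.eventually (gt_mem_nhds hm0)).and
    (t2.eventually_gt_atTop C)).and (eventually_gt_atTop 0)).exists
  have hN' : (1:ℝ) ≤ N := by exact_mod_cast hN
  set u : Fin (n + 2) → EuclideanSpace ℝ (Fin (n + 2)) :=
    fun i => EuclideanSpace.single i (dg n N i) with hu
  have hcd : ContDiff ℝ 1 (fun z => √(theta α u z)) := by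
    have : (fun z => √(theta α u z)) = fun z => √(∏ i, th c (dg n N i) (z i)) :=
      funext fun z => by rw [hu, theta_diag hα _ (dg_pos n hN)]
    rw [this]
    refine ContDiff.sqrt (contDiff_prod fun i _ => ?_) fun z => ?_
    · exact (cd_th hc (dg_pos n hN i)).comp (by fun_prop)
    · exact (Finset.prod_pos fun i _ => th_pos hc (dg_pos n hN i) _).ne'
  refine ⟨u, ?_, hcd, ?_⟩
  · have : (Matrix.of fun i j => u i j) = Matrix.diagonal (dg n N) := by
      ext i j
      simp [hu, Matrix.diagonal_apply, Pi.single_apply, eq_comm]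
    rw [this, Matrix.det_diagonal, Fin.prod_univ_succ, Fin.prod_univ_succ]
    have : (N:ℝ) ≠ 0 := by positivity
    simp [dg, this]
  · have hQc : Continuous (Q α u) := by
      have h1 := hcd.continuous_fderiv (by norm_num)
      have : Q α u = fun y => ‖fderiv ℝ (fun z => √(theta α u z)) y‖ ^ 2 := by
        funext y; simp [Q, gradient]
      rw [this]; fun_prop
    have hsub : B ⊆ Metric.closedBall 0 R := by
      refine Metric.closedBall_subset_closedBall' ?_
      have : dist p 0 = R / 2 := by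
        simp [hp, abs_of_pos hR]
      linarith
    have hint : IntegrableOn (Q α u) (Metric.closedBall 0 R) :=
      hQc.continuousOn.integrableOn_compact (isCompact_closedBall _ _)
    have h1 : ∫ y in B, Q α u y ≤ F α R u :=
      setIntegral_mono_set hint (Eventually.of_forall fun y => sq_nonneg _) hsub.eventuallyLE
    have h2 : (N * K) * volume.real B ≤ ∫ y in B, Q α u y := by
      refine setIntegral_ge_of_const_le_real Metric.isClosed_closedBall.measurableSet
        (isCompact_closedBall _ _).measure_lt_top.ne (fun y hy => ?_) (hint.mono_set hsub)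
      have hyR : ‖y‖ ≤ R := by simpa using hsub hy
      have hy1 : |y 1 - R / 2| ≤ R / 4 := by
        have h3 := PiLp.norm_apply_le (y - p) 1
        have h4 : ‖y - p‖ ≤ R / 4 := by simpa [hB, dist_eq_norm] using hy
        have h5 : (y - p) 1 = y 1 - R / 2 := by simp [hp]
        rw [h5] at h3
        exact h3.trans h4
      rw [abs_le] at hy1
      have hy2 : |y 1| ≤ R := by rw [abs_le]; constructor <;> linarith [hy1.1, hy1.2]
      refine Q_ge hN hα hm0 y hyR ?_ (hcd.differentiable (by norm_num) y)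
      have h6 := th'_le hc hN' hy2
      have h7 : Real.exp (-c * R ^ 2) ≤ Real.exp (-c * (y 1) ^ 2) := by
        apply Real.exp_le_exp.2
        have : (y 1) ^ 2 ≤ R ^ 2 := by rw [← sq_abs (y 1)]; gcongr
        nlinarith
      have h8 : m ≤ c * (y 1) * Real.exp (-c * (y 1) ^ 2) := by
        rw [hm]
        have : R / 4 ≤ y 1 := by linarith [hy1.1]
        have h9 : 0 ≤ y 1 := by linarith
        gcongr
      linarith
    linarith

end Pool.Agent.Results.MP_e166ae_gt.No
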